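import Pool.Agent.H6Turan.Core

set_option autoImplicit false

/-!
# A fast kernel check that an integer matrix is positive semidefinite

The matrix is `K i j - off`, where `K` is a symmetric table of natural numbers.  The approximate
Cholesky factor of `c * (K - off)` is given by packed columns `C k`, whose lane number `j` is
`L j k + o`.
-/

namespace Pool.Agent.H5N7

open Pool.Agent.H6Turan

/-- lane number `j` of `x`; the lanes have `w` bits and `mk = 2 ^ w - 1` -/
def ln (w mk x j : ℕ) : ℕ := Nat.land (Nat.shiftRight x (Nat.mul w j)) mk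

/-- the mask of the low `b` bits (`mb = 2 ^ b - 1`) of the first `n` lanes -/
def mrep (w mb : ℕ) : ℕ → ℕ
  | 0 => 0
  | n + 1 => Nat.add (mrep w mb n) (Nat.shiftLeft mb (Nat.mul w n))

/-- sum of the columns -/
def csum (C : ℕ → ℕ) : ℕ → ℕ
  | 0 => 0
  | k + 1 => Nat.add (csum C k) (C k)

/-- packed row number `i` of the product of the factor with its transpose -/
def prow (w mk : ℕ) (C : ℕ → ℕ) (i : ℕ) : ℕ → ℕ
  | 0 => 0
  | k + 1 => Nat.add (prow w mk C i k) (Nat.mul (ln w mk (C k) i) (C k))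

/-- distance of two natural numbers -/
def adiff (a b : ℕ) : ℕ := Nat.add (Nat.sub a b) (Nat.sub b a)

/-- one entry, positive part -/
def aent (w mk c o S si x j : ℕ) : ℕ := Nat.add (Nat.mul c x) (Nat.mul o (Nat.add si (ln w mk S j)))

/-- one entry, negative part -/
def bent (w mk B P j : ℕ) : ℕ := Nat.add (ln w mk P j) B

/-- sum of the errors of a row -/
def rerr (w mk c o B : ℕ) (Kr : ℕ → ℕ) (S P si : ℕ) : ℕ → ℕ
  | 0 => 0
  | j + 1 => Nat.add (rerr w mk c o B Kr S P si j)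
      (adiff (aent w mk c o S si (Kr j) j) (bent w mk B P j))

/-- check of one row, given the packed product `P` and the sum of the columns `S` -/
def rowOK2 (w mk m c o B : ℕ) (Kr : ℕ → ℕ) (i S P : ℕ) : Bool :=
  Nat.ble (rerr w mk c o B Kr S P (ln w mk S i) m)
    (Nat.mul 2 (Nat.sub (aent w mk c o S (ln w mk S i) (Kr i) i) (bent w mk B P i)))

/-- check of one row -/
def rowOK (w mk m c o B : ℕ) (K : ℕ → ℕ → ℕ) (C : ℕ → ℕ) (i : ℕ) : Bool :=
  rowOK2 w mk m c o B (K i) i (csum C m) (prow w mk C i m)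

/-- the columns fit into the lanes, with `b` bits each -/
def colOK (w mb m : ℕ) (C : ℕ → ℕ) : Bool :=
  allLt (fun k => Nat.beq (Nat.land (C k) (mrep w mb m)) (C k)) m

/-- the check -/
def psdFast (w mk mb m c o B : ℕ) (K : ℕ → ℕ → ℕ) (C : ℕ → ℕ) : Bool :=
  (colOK w mb m C) && (allLt (rowOK w mk m c o B K C) m)

/-! ### Lanes -/

theorem ln_eq {w mk : ℕ} (hmk : mk = 2 ^ w - 1) (x j : ℕ) :
    ln w mk x j = x / 2 ^ (w * j) % 2 ^ w := by
  subst hmk
  show (x >>> (w * j)) &&& (2 ^ w - 1) = _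
  rw [Nat.and_two_pow_sub_one_eq_mod, Nat.shiftRight_eq_div_pow]

/-- the number with lanes `q` -/
def pks (w : ℕ) (q : ℕ → ℕ) (m : ℕ) : ℕ := ∑ j ∈ Finset.range m, q j * 2 ^ (w * j)

theorem pks_lt (w : ℕ) (q : ℕ → ℕ) (m : ℕ) (hq : ∀ j < m, q j < 2 ^ w) :
    pks w q m < 2 ^ (w * m) := by
  induction m with
  | zero => simp [pks]
  | succ m ih =>
    have h1 := ih (fun j hj => hq j (Nat.lt_succ_of_lt hj))
    have h2 := hq m (Nat.lt_succ_self m)
    unfold pks at *
    rw [Finset.sum_range_succ, Nat.mul_succ, pow_add]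
    have h3 : q m + 1 ≤ 2 ^ w := h2
    have h4 : (q m + 1) * 2 ^ (w * m) ≤ 2 ^ w * 2 ^ (w * m) := Nat.mul_le_mul_right _ h3
    have h5 : (q m + 1) * 2 ^ (w * m) = q m * 2 ^ (w * m) + 2 ^ (w * m) := by ring
    rw [mul_comm (2 ^ (w * m)) (2 ^ w)]
    omega

theorem ln_pks (w : ℕ) (q : ℕ → ℕ) (m : ℕ) (hq : ∀ j < m, q j < 2 ^ w) (j : ℕ) (hj : j < m) :
    pks w q m / 2 ^ (w * j) % 2 ^ w = q j := by
  induction m with
  | zero => omega
  | succ m ih =>
    have hq' : ∀ j < m, q j < 2 ^ w := fun j hj => hq j (Nat.lt_succ_of_lt hj)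
    have hlt := pks_lt w q m hq'
    have hs : pks w q (m + 1) = pks w q m + q m * 2 ^ (w * m) := by
      unfold pks
      rw [Finset.sum_range_succ]
    rw [hs]
    rcases Nat.lt_succ_iff_lt_or_eq.mp hj with h | h
    · obtain ⟨d, rfl⟩ : ∃ d, m = j + 1 + d := ⟨m - (j + 1), by omega⟩
      have e : q (j + 1 + d) * 2 ^ (w * (j + 1 + d))
          = 2 ^ (w * j) * (2 ^ w * (2 ^ (w * d) * q (j + 1 + d))) := by
        rw [show w * (j + 1 + d) = w * j + (w + w * d) by ring, pow_add, pow_add]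
        ring
      rw [e, Nat.add_mul_div_left _ _ (Nat.two_pow_pos _), Nat.add_mul_mod_self_left]
      exact ih hq' (by omega)
    · subst h
      rw [mul_comm, Nat.add_mul_div_left _ _ (Nat.two_pow_pos _), Nat.div_eq_of_lt hlt, zero_add,
        Nat.mod_eq_of_lt (hq j (Nat.lt_succ_self j))]

theorem digits (w x m : ℕ) (hx : x < 2 ^ (w * m)) :
    x = pks w (fun j => x / 2 ^ (w * j) % 2 ^ w) m := by
  have key : ∀ m, x % 2 ^ (w * m) = pks w (fun j => x / 2 ^ (w * j) % 2 ^ w) m := by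
    intro m
    induction m with
    | zero => simp [pks, Nat.mod_one]
    | succ m ih =>
      have : pks w (fun j => x / 2 ^ (w * j) % 2 ^ w) (m + 1)
          = pks w (fun j => x / 2 ^ (w * j) % 2 ^ w) m
            + (x / 2 ^ (w * m) % 2 ^ w) * 2 ^ (w * m) := by
        unfold pks
        rw [Finset.sum_range_succ]
      rw [this, ← ih, Nat.mul_succ, pow_add, Nat.mod_mul, mul_comm (2 ^ (w * m))]
  rw [← key m, Nat.mod_eq_of_lt hx]

theorem mrep_lt (w b m : ℕ) (hb : b ≤ w) : mrep w (2 ^ b - 1) m < 2 ^ (w * m) := by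
  induction m with
  | zero => simp [mrep]
  | succ m ih =>
    show mrep w (2 ^ b - 1) m + (2 ^ b - 1) <<< (w * m) < _
    rw [Nat.shiftLeft_eq, Nat.mul_succ, pow_add]
    have h1 : 2 ^ b ≤ 2 ^ w := Nat.pow_le_pow_right (by norm_num) hb
    have h2 : (2 ^ b - 1) + 1 ≤ 2 ^ w := by
      have := Nat.two_pow_pos b
      omega
    have h4 := Nat.mul_le_mul_right (2 ^ (w * m)) h2
    have h5 : ((2 ^ b - 1) + 1) * 2 ^ (w * m) = (2 ^ b - 1) * 2 ^ (w * m) + 2 ^ (w * m) := by ring
    rw [mul_comm (2 ^ (w * m)) (2 ^ w)]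
    omega

theorem mrep_testBit (w b m : ℕ) (hb : b ≤ w) (i j : ℕ) (hi : i < w) (hj : j < m)
    (h : (mrep w (2 ^ b - 1) m).testBit (w * j + i) = true) : i < b := by
  induction m with
  | zero => omega
  | succ m ih =>
    have hs : mrep w (2 ^ b - 1) (m + 1)
        = 2 ^ (w * m) * (2 ^ b - 1) + mrep w (2 ^ b - 1) m := by
      show mrep w (2 ^ b - 1) m + (2 ^ b - 1) <<< (w * m) = _
      rw [Nat.shiftLeft_eq]
      ring
    rw [hs, Nat.testBit_two_pow_mul_add _ (mrep_lt w b m hb)] at h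
    split_ifs at h with h1
    · refine ih ?_ h
      by_contra hc
      have : j = m := by omega
      subst this
      omega
    · have hjm : j = m := by
        by_contra hc
        have : j + 1 ≤ m := by omega
        have h3 := Nat.mul_le_mul_left w this
        rw [Nat.mul_succ] at h3
        omega
      subst hjm
      have e : w * j + i - w * j = i := by omega
      rw [e, Nat.testBit_two_pow_sub_one] at h
      exact of_decide_eq_true h

theorem lane_lt (w b m x : ℕ) (hb : b ≤ w) (h : Nat.land x (mrep w (2 ^ b - 1) m) = x) (j : ℕ)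
    (hj : j < m) : x / 2 ^ (w * j) % 2 ^ w < 2 ^ b := by
  apply Nat.lt_pow_two_of_testBit
  intro i hi
  rw [Nat.testBit_mod_two_pow, Nat.testBit_div_two_pow]
  by_cases hiw : i < w
  · have hx : x.testBit (i + w * j) = (x &&& mrep w (2 ^ b - 1) m).testBit (i + w * j) := by
      conv_lhs => rw [← h]
      rfl
    rw [hx, Nat.testBit_and]
    by_cases ht : (mrep w (2 ^ b - 1) m).testBit (i + w * j) = true
    · have := mrep_testBit w b m hb i j hiw hj (by rw [add_comm]; exact ht)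
      omega
    · rw [Bool.not_eq_true] at ht
      rw [ht]
      simp
  · simp [hiw]

theorem lt_of_land (w b m x : ℕ) (hb : b ≤ w) (h : Nat.land x (mrep w (2 ^ b - 1) m) = x) :
    x < 2 ^ (w * m) := by
  have h1 : x ≤ mrep w (2 ^ b - 1) m := by
    conv_lhs => rw [← h]
    exact Nat.and_le_right
  exact lt_of_le_of_lt h1 (mrep_lt w b m hb)

/-! ### Soundness -/

theorem csum_eq (C : ℕ → ℕ) (n : ℕ) : csum C n = ∑ k ∈ Finset.range n, C k := by
  induction n with
  | zero => rfl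
  | succ n ih => rw [csum, Finset.sum_range_succ, ← ih]; rfl

theorem prow_eq (w mk : ℕ) (C : ℕ → ℕ) (i n : ℕ) :
    prow w mk C i n = ∑ k ∈ Finset.range n, ln w mk (C k) i * C k := by
  induction n with
  | zero => rfl
  | succ n ih => rw [prow, Finset.sum_range_succ, ← ih]; rfl

theorem adiff_cast (a b : ℕ) : ((adiff a b : ℕ) : ℤ) = |(a : ℤ) - b| := by
  show ((a - b + (b - a) : ℕ) : ℤ) = _
  rcases Nat.le_total a b with h | h
  · rw [Nat.sub_eq_zero_of_le h, zero_add, Nat.cast_sub h, abs_sub_comm, abs_of_nonneg]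
    have : (a : ℤ) ≤ b := by exact_mod_cast h
    linarith
  · rw [Nat.sub_eq_zero_of_le h, add_zero, Nat.cast_sub h, abs_of_nonneg]
    have : (b : ℤ) ≤ a := by exact_mod_cast h
    linarith

theorem rerr_cast (w mk c o B : ℕ) (Kr : ℕ → ℕ) (S P si n : ℕ) :
    ((rerr w mk c o B Kr S P si n : ℕ) : ℤ)
      = ∑ j ∈ Finset.range n, |((aent w mk c o S si (Kr j) j : ℕ) : ℤ) - (bent w mk B P j : ℕ)| := by
  induction n with
  | zero => rfl
  | succ n ih =>
    rw [rerr, Finset.sum_range_succ, Nat.add_eq, Nat.cast_add, ih, adiff_cast]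

/-- **Soundness of the check.** -/
theorem psdFast_sound (w b m c off o mk mb B : ℕ) (hc : 0 < c) (hb : b ≤ w)
    (hw : m * 2 ^ (2 * b) ≤ 2 ^ w) (hmk : mk = 2 ^ w - 1) (hmb : mb = 2 ^ b - 1)
    (hB : B = m * o ^ 2 + c * off) (K : ℕ → ℕ → ℕ) (hK : ∀ i < m, ∀ j < m, K i j = K j i)
    (C : ℕ → ℕ) (h : psdFast w mk mb m c o B K C = true) (y : ℕ → ℤ) :
    0 ≤ ∑ i ∈ Finset.range m, ∑ j ∈ Finset.range m, ((K i j : ℤ) - off) * y i * y j := by
  unfold psdFast at h
  rw [Bool.and_eq_true] at h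
  obtain ⟨h1, h2⟩ := h
  have hland : ∀ k < m, Nat.land (C k) (mrep w (2 ^ b - 1) m) = C k := by
    intro k hk
    have := Nat.eq_of_beq_eq_true (allLt_spec h1 k hk)
    rw [hmb] at this
    exact this
  -- the entries of the factor
  obtain ⟨Lp, hLp⟩ : ∃ Lp : ℕ → ℕ → ℕ, ∀ i k, Lp i k = C k / 2 ^ (w * i) % 2 ^ w :=
    ⟨fun i k => C k / 2 ^ (w * i) % 2 ^ w, fun _ _ => rfl⟩
  have hLt : ∀ i < m, ∀ k < m, Lp i k < 2 ^ b := by
    intro i hi k hk
    rw [hLp]
    exact lane_lt w b m (C k) hb (hland k hk) i hi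
  have hC : ∀ k < m, C k = pks w (fun j => Lp j k) m := by
    intro k hk
    simp only [hLp]
    exact digits w (C k) m (lt_of_land w b m (C k) hb (hland k hk))
  obtain ⟨Q, hQ⟩ : ∃ Q : ℕ → ℕ → ℕ, ∀ i j, Q i j = ∑ k ∈ Finset.range m, Lp i k * Lp j k :=
    ⟨fun i j => ∑ k ∈ Finset.range m, Lp i k * Lp j k, fun _ _ => rfl⟩
  obtain ⟨s, hs⟩ : ∃ s : ℕ → ℕ, ∀ j, s j = ∑ k ∈ Finset.range m, Lp j k :=
    ⟨fun j => ∑ k ∈ Finset.range m, Lp j k, fun _ => rfl⟩
  have hQlt : ∀ i < m, ∀ j < m, Q i j < 2 ^ w := by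
    intro i hi j hj
    have hm : 0 < m := lt_of_le_of_lt (Nat.zero_le _) hi
    rw [hQ]
    have : ∑ k ∈ Finset.range m, Lp i k * Lp j k < ∑ _k ∈ Finset.range m, 2 ^ (2 * b) := by
      refine Finset.sum_lt_sum_of_nonempty ⟨0, Finset.mem_range.mpr hm⟩ (fun k hk => ?_)
      have hk' := Finset.mem_range.mp hk
      rw [two_mul, pow_add]
      exact Nat.mul_lt_mul'' (hLt i hi k hk') (hLt j hj k hk')
    rw [Finset.sum_const, Finset.card_range, smul_eq_mul] at this
    exact lt_of_lt_of_le this hw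
  have hslt : ∀ j < m, s j < 2 ^ w := by
    intro j hj
    have hm : 0 < m := lt_of_le_of_lt (Nat.zero_le _) hj
    rw [hs]
    have : ∑ k ∈ Finset.range m, Lp j k < ∑ _k ∈ Finset.range m, 2 ^ (2 * b) := by
      refine Finset.sum_lt_sum_of_nonempty ⟨0, Finset.mem_range.mpr hm⟩ (fun k hk => ?_)
      have hk' := Finset.mem_range.mp hk
      exact lt_of_lt_of_le (hLt j hj k hk') (Nat.pow_le_pow_right (by norm_num) (by omega))
    rw [Finset.sum_const, Finset.card_range, smul_eq_mul] at this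
    exact lt_of_lt_of_le this hw
  have hP : ∀ i < m, prow w mk C i m = pks w (Q i) m := by
    intro i hi
    rw [prow_eq]
    unfold pks
    simp only [hQ, Finset.sum_mul]
    rw [Finset.sum_comm]
    refine Finset.sum_congr rfl (fun k hk => ?_)
    have hk' := Finset.mem_range.mp hk
    rw [ln_eq hmk, ← hLp]
    conv_lhs => rw [hC k hk']
    unfold pks
    rw [Finset.mul_sum]
    exact Finset.sum_congr rfl (fun j _ => by ring)
  have hS : csum C m = pks w s m := by
    rw [csum_eq]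
    unfold pks
    simp only [hs, Finset.sum_mul]
    rw [Finset.sum_comm]
    refine Finset.sum_congr rfl (fun k hk => ?_)
    exact hC k (Finset.mem_range.mp hk)
  have hlnP : ∀ i < m, ∀ j < m, ln w mk (prow w mk C i m) j = Q i j := by
    intro i hi j hj
    rw [ln_eq hmk, hP i hi, ln_pks w (Q i) m (hQlt i hi) j hj]
  have hlnS : ∀ j < m, ln w mk (csum C m) j = s j := by
    intro j hj
    rw [ln_eq hmk, hS, ln_pks w s m hslt j hj]
  -- the error terms
  have hdot : ∀ i j, dotk (fun i k => (Lp i k : ℤ) - o) i j m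
      = (Q i j : ℤ) - o * ((s i : ℤ) + s j) + m * (o : ℤ) ^ 2 := by
    intro i j
    rw [dotk_eq, hQ, hs, hs]
    push_cast
    have : ∀ k, ((Lp i k : ℤ) - o) * ((Lp j k : ℤ) - o)
        = (Lp i k : ℤ) * Lp j k - o * ((Lp i k : ℤ) + Lp j k) + (o : ℤ) ^ 2 := fun k => by ring
    simp only [this]
    rw [Finset.sum_add_distrib, Finset.sum_sub_distrib, ← Finset.mul_sum, Finset.sum_add_distrib,
      Finset.sum_const, Finset.card_range, nsmul_eq_mul]
  have hent : ∀ i < m, ∀ j < m,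
      ((aent w mk c o (csum C m) (ln w mk (csum C m) i) (K i j) j : ℕ) : ℤ)
        - (bent w mk B (prow w mk C i m) j : ℕ)
      = (c : ℤ) * ((K i j : ℤ) - off) - dotk (fun i k => (Lp i k : ℤ) - o) i j m := by
    intro i hi j hj
    unfold aent bent
    rw [hlnP i hi j hj, hlnS i hi, hlnS j hj, hdot, hB]
    show (((c * K i j + o * (s i + s j) : ℕ)) : ℤ) - ((Q i j + (m * o ^ 2 + c * off) : ℕ) : ℤ) = _
    push_cast
    ring
  refine psd_of_approx m (c : ℤ) (by exact_mod_cast hc) (fun i j => (K i j : ℤ) - off)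
    (fun i k => (Lp i k : ℤ) - o) (fun i hi j hj => by simp only [hK i hi j hj])
    (fun i hi => ?_) y
  have h3 := allLt_spec h2 i hi
  unfold rowOK rowOK2 at h3
  have h4 := Nat.le_of_ble_eq_true h3
  have h5 : ((rerr w mk c o B (K i) (csum C m) (prow w mk C i m) (ln w mk (csum C m) i) m : ℕ) : ℤ)
      ≤ 2 * ((aent w mk c o (csum C m) (ln w mk (csum C m) i) (K i i) i
        - bent w mk B (prow w mk C i m) i : ℕ) : ℤ) := by
    exact_mod_cast h4
  rw [rerr_cast] at h5
  have h6 : ∑ j ∈ Finset.range m, |(c : ℤ) * ((K i j : ℤ) - off)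
        - dotk (fun i k => (Lp i k : ℤ) - o) i j m|
      = ∑ j ∈ Finset.range m, |((aent w mk c o (csum C m) (ln w mk (csum C m) i) (K i j) j : ℕ) : ℤ)
        - (bent w mk B (prow w mk C i m) j : ℕ)| :=
    Finset.sum_congr rfl (fun j hj => by rw [hent i hi j (Finset.mem_range.mp hj)])
  rw [h6]
  refine le_trans h5 ?_
  rw [← hent i hi i hi]
  rcases Nat.le_total (bent w mk B (prow w mk C i m) i)
    (aent w mk c o (csum C m) (ln w mk (csum C m) i) (K i i) i) with h7 | h7
  · rw [Nat.cast_sub h7]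
  · have h8 : |((aent w mk c o (csum C m) (ln w mk (csum C m) i) (K i i) i : ℕ) : ℤ)
        - (bent w mk B (prow w mk C i m) i : ℕ)| ≤ 0 := by
      rw [Nat.sub_eq_zero_of_le h7, Nat.cast_zero, mul_zero] at h5
      refine le_trans ?_ h5
      exact Finset.single_le_sum
        (f := fun j => |((aent w mk c o (csum C m) (ln w mk (csum C m) i) (K i j) j : ℕ) : ℤ)
          - (bent w mk B (prow w mk C i m) j : ℕ)|)
        (fun _ _ => abs_nonneg _) (Finset.mem_range.mpr hi)
    have h9 := abs_nonpos_iff.mp h8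
    rw [h9, Nat.sub_eq_zero_of_le h7, Nat.cast_zero]
end Pool.Agent.H5N7
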